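import Pool.Agent.H59.PO.Pow4

/-! The conditions on the commutators of an orbit. -/

set_option autoImplicit false

open scoped commutatorElement

namespace Pool.Agent.H59.PO

open Pool.Agent.H83.BF (pw)

universe u

variable {G : Type u} [Group G]

theorem orb_pow_mem {p : ℕ} {φ : MulAut G} (hS : Spl p φ) (g : G) (i : ℕ) :
    (φ ^ i) g ∈ Orb p φ g := by
  have h1 : φ ^ i = φ ^ (i % p) := by
    conv_lhs => rw [← Nat.div_add_mod i p, pow_add, pow_mul, hS.pow, one_pow, one_mul]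
  rw [h1]
  exact Subgroup.subset_closure ⟨⟨i % p, Nat.mod_lt i hS.prime.pos⟩, rfl⟩

/-- Powerful orbit subgroups: the commutators lie in every normal subgroup that contains the `φ^j(g ^ q)`. -/
theorem pow_orb {p : ℕ} {φ : MulAut G} (hS : Spl p φ) {q : ℕ} (hq : q.Prime) (g : G) (e : ℕ)
    (hg : g ^ q ^ e = 1)
    (h : ⁅Orb p φ g, Orb p φ g⁆ ≤ pw (if q = 2 then 4 else q) (Orb p φ g))
    (N : Subgroup G) [N.Normal] (hN : ∀ j : ℕ, (φ ^ j) (g ^ q) ∈ N) (i : ℕ) :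
    ⁅g, (φ ^ i) g⁆ ∈ N := by
  refine pow_in hq (Set.range (fun i : Fin p => (φ ^ (i : ℕ)) g)) (orb_finite hS g)
    (orb_pgroup hS hq e g hg) h N ?_
    (Subgroup.commutator_mem_commutator (mem_orb hS g) (orb_pow_mem hS g i))
  rintro s ⟨j, rfl⟩
  show ((φ ^ (j : ℕ)) g) ^ q ∈ N
  rw [← map_pow]
  exact hN j

/-- The first condition from the two alternatives. -/
theorem cond {p : ℕ} {φ : MulAut G} (hS : Spl p φ) {q : ℕ} (hq : q.Prime)
    (H : ∀ (n : ℕ) (g : G), g ^ q ^ (n + 1) = 1 →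
      (∀ i : ℕ, ⁅g, (φ ^ i) g⁆ ∈ Subgroup.closure {h : G | h ^ q ^ n = 1}) ∨
        ⁅Orb p φ g, Orb p φ g⁆ ≤ pw (if q = 2 then 4 else q) (Orb p φ g)) :
    ∀ (n : ℕ) (g : G) (i : ℕ), g ^ q ^ (n + 1) = 1 →
      ⁅g, (φ ^ i) g⁆ ∈ Subgroup.closure {h : G | h ^ q ^ n = 1} := by
  intro n g i hg
  rcases H n g hg with h | h
  · exact h i
  · have h1 : Subgroup.normalClosure {h : G | h ^ q ^ n = 1} ≤
        Subgroup.closure {h : G | h ^ q ^ n = 1} := by
      unfold Subgroup.normalClosure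
      rw [Subgroup.closure_le]
      intro y hy
      rw [Group.mem_conjugatesOfSet_iff] at hy
      obtain ⟨a, ha, hy⟩ := hy
      obtain ⟨c, rfl⟩ := isConj_iff.1 hy
      apply Subgroup.subset_closure
      show (c * a * c⁻¹) ^ q ^ n = 1
      rw [conj_pow, ha, mul_one, mul_inv_cancel]
    refine h1 (pow_orb hS hq g (n + 1) hg h _ (fun j => ?_) i)
    apply Subgroup.subset_normalClosure
    show ((φ ^ j) (g ^ q)) ^ q ^ n = 1
    rw [← map_pow, ← pow_mul, ← pow_succ', hg, map_one]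

end Pool.Agent.H59.PO
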