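import Pool.Agent.H59.PO.Defs
import Pool.Agent.H83.BF.Local

/-! The elements of prime power order lie in the locally finite radical. -/

set_option autoImplicit false

open scoped commutatorElement

namespace Pool.Agent.H59.PO

open Pool.Agent.H76.MB (LF rad)

universe u

variable {G : Type u} [Group G]

/-- the last `p - 1` factors of the splitting relation -/
theorem prod_tail {p : ℕ} (hp : p.Prime) {φ : MulAut G} (x : G)
    (h : ((List.range p).map (fun i => (φ ^ i) x)).prod = 1) :
    x⁻¹ = ((List.range (p - 1)).map (fun i => (φ ^ (i + 1)) x)).prod := by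
  obtain ⟨m, rfl⟩ : ∃ m, p = m + 1 := ⟨p - 1, by have := hp.pos; omega⟩
  rw [List.range_succ_eq_map, List.map_cons, List.prod_cons, List.map_map] at h
  have h1 : (φ ^ 0) x = x := rfl
  rw [h1] at h
  exact inv_eq_of_mul_eq_one_right h

theorem comm_list {Q : Type u} [Group Q] (a : Q) (l : List Q) (h : ∀ b ∈ l, Commute a b) :
    Commute a l.prod := by
  induction l with
  | nil => exact Commute.one_right a
  | cons b l ih =>
    rw [List.prod_cons]
    exact (h b List.mem_cons_self).mul_right (ih fun c hc => h c (List.mem_cons_of_mem _ hc))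

theorem mem_rad_of {p : ℕ} {φ : MulAut G} (hS : Spl p φ) {q : ℕ}
    (H : ∀ (n : ℕ) (g : G) (i : ℕ), g ^ q ^ (n + 1) = 1 →
      ⁅g, (φ ^ i) g⁆ ∈ Subgroup.closure {h : G | h ^ q ^ n = 1}) (e : ℕ) :
    ∀ x : G, x ^ q ^ e = 1 → x ∈ rad G := by
  induction e with
  | zero =>
    intro x hx
    rw [pow_zero, pow_one] at hx
    rw [hx]
    exact one_mem _
  | succ e ih =>
    intro x hx
    let π := QuotientGroup.mk' (rad G)
    -- `x` commutes modulo the radical with all conjugates of `φ ^ i x`
    have h1 : ∀ (i : ℕ), ¬ p ∣ i → ∀ a : G, Commute (π x) (π (a * (φ ^ i) x * a⁻¹)) := by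
      intro i hi a
      obtain ⟨h, hh⟩ := H81.SC.lang hS.prime hS.cop hS.pow hS.split hS.nilp hi a
      have hy : (h⁻¹ * x * h) ^ q ^ (e + 1) = 1 := by
        have h2 := conj_pow (i := q ^ (e + 1)) (a := h⁻¹) (b := x)
        rw [inv_inv] at h2
        rw [h2, hx]
        group
      have h2 : ⁅h⁻¹ * x * h, (φ ^ i) (h⁻¹ * x * h)⁆ ∈ rad G :=
        (Subgroup.closure_le (K := rad G)).2 ih (H e (h⁻¹ * x * h) i hy)
      have h3 : Commute (π (h⁻¹ * x * h)) (π ((φ ^ i) (h⁻¹ * x * h))) := by
        rw [← commutatorElement_eq_one_iff_commute, ← map_commutatorElement]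
        exact (QuotientGroup.eq_one_iff _).2 h2
      have h4 : π (a * (φ ^ i) x * a⁻¹) = π h * π ((φ ^ i) (h⁻¹ * x * h)) * (π h)⁻¹ := by
        rw [← map_inv, ← map_mul, ← map_mul, hh]
        congr 1
        rw [map_mul, map_mul, map_inv]
        group
      have h5 : π x = π h * π (h⁻¹ * x * h) * (π h)⁻¹ := by
        rw [← map_inv, ← map_mul, ← map_mul]
        congr 1
        group
      rw [h4, h5]
      show _ * _ = _ * _
      have h6 := h3.eq
      calc π h * π (h⁻¹ * x * h) * (π h)⁻¹ * (π h * π ((φ ^ i) (h⁻¹ * x * h)) * (π h)⁻¹) =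
          π h * (π (h⁻¹ * x * h) * π ((φ ^ i) (h⁻¹ * x * h))) * (π h)⁻¹ := by group
        _ = π h * (π ((φ ^ i) (h⁻¹ * x * h)) * π (h⁻¹ * x * h)) * (π h)⁻¹ := by rw [h6]
        _ = _ := by group
    have h2 : ∀ a : G, Commute (π x) (π (a * x * a⁻¹)) := by
      intro a
      have h3 := prod_tail hS.prime x (hS.split x)
      have h4 : π (a * x * a⁻¹) = (π (a * x⁻¹ * a⁻¹))⁻¹ := by
        rw [← map_inv]
        congr 1
        group
      rw [h4]
      refine Commute.inv_right ?_
      have h5 : a * x⁻¹ * a⁻¹ =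
          ((List.range (p - 1)).map (fun i => a * (φ ^ (i + 1)) x * a⁻¹)).prod := by
        rw [h3]
        have h6 := map_list_prod (MulAut.conj a).toMonoidHom
          ((List.range (p - 1)).map (fun i => (φ ^ (i + 1)) x))
        rw [List.map_map] at h6
        exact h6
      rw [h5, map_list_prod, List.map_map]
      apply comm_list
      intro b hb
      obtain ⟨i, hi, rfl⟩ := List.mem_map.1 hb
      rw [List.mem_range] at hi
      refine h1 (i + 1) ?_ a
      intro hd
      have := Nat.le_of_dvd (Nat.succ_pos i) hd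
      omega
    have h3 : ∀ g : G ⧸ rad G, Commute (π x) (g * π x * g⁻¹) := by
      intro g
      obtain ⟨a, rfl⟩ := QuotientGroup.mk'_surjective (rad G) g
      have := h2 a
      rw [map_mul, map_mul, map_inv] at this
      exact this
    have h4 := Pool.Agent.H83.BF.normalClosure_singleton_comm (π x) h3
    have h5 : LF (Subgroup.normalClosure {π x}) := by
      refine Pool.Agent.H76.MB.LF_of_comm (fun a b => Subtype.ext (h4 a a.2 b b.2)) ?_
      refine Pool.Agent.H76.MB.fin_sub ?_ _
      intro g
      obtain ⟨a, rfl⟩ := QuotientGroup.mk'_surjective (rad G) g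
      exact MonoidHom.isOfFinOrder π (H81.SC.ord_ne hS.prime (hS.cop a))
    have h6 := Pool.Agent.H76.MB.rad_quot G (Subgroup.normalClosure {π x}) inferInstance h5
    have h7 : π x ∈ Subgroup.normalClosure {π x} := Subgroup.subset_normalClosure rfl
    rw [h6, Subgroup.mem_bot] at h7
    exact (QuotientGroup.eq_one_iff x).1 h7

/-- Proof: an element of finite order is a product of powers of prime power order. -/
theorem lf_of {p : ℕ} {φ : MulAut G} (hS : Spl p φ)
    (H : ∀ q : ℕ, q.Prime → ∀ (n : ℕ) (g : G), g ^ q ^ n = 1 → g ∈ rad G) : LF G := by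
  have key : ∀ n : ℕ, 0 < n → ∀ g : G, g ^ n = 1 → g ∈ rad G := by
    intro n
    induction n using Nat.recOnPosPrimePosCoprime with
    | zero => intro h; omega
    | one =>
      intro _ g hg
      rw [pow_one] at hg
      rw [hg]
      exact one_mem _
    | prime_pow q m hq _ =>
      intro _ g hg
      exact H q hq m g hg
    | coprime a b ha hb hab iha ihb =>
      intro _ g hg
      have h1 : g ^ a ∈ rad G := ihb (by omega) _ (by rw [← pow_mul]; exact hg)
      have h2 : g ^ b ∈ rad G := iha (by omega) _ (by rw [← pow_mul, mul_comm]; exact hg)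
      have h3 := Nat.gcd_eq_gcd_ab a b
      rw [hab.gcd_eq_one] at h3
      have h4 : g = (g ^ a) ^ (a.gcdA b) * (g ^ b) ^ (a.gcdB b) := by
        rw [← zpow_natCast, ← zpow_natCast, ← zpow_mul, ← zpow_mul, ← zpow_add, ← h3]
        simp
      rw [h4]
      exact mul_mem (zpow_mem h1 _) (zpow_mem h2 _)
  have h1 : rad G = ⊤ := by
    rw [eq_top_iff]
    intro g _
    obtain ⟨n, hn, h⟩ := isOfFinOrder_iff_pow_eq_one.1 (H81.SC.ord_ne hS.prime (hS.cop g))
    exact key n hn g h
  have h2 := Pool.Agent.H76.MB.rad_LF G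
  rw [h1] at h2
  exact h2.of_surj (Subgroup.topEquiv (G := G)).toMonoidHom (Subgroup.topEquiv (G := G)).surjective

end Pool.Agent.H59.PO
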