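import Pool.Agent.H59.PO.Lnil
import Pool.Agent.H59.PO.Cond
import Pool.Agent.H59.PO.Step

/-! One prime at a time. -/

set_option autoImplicit false

open scoped commutatorElement

namespace Pool.Agent.H59.PO

open Pool.Agent.H76.MB (LF rad)

universe u

theorem transfer {G : Type u} [Group G] (N K : Subgroup G) (hle : K ≤ N) (hK : K.FG)
    (hLF : LF N) (hnil : ∀ L : Subgroup N, L.FG → Group.IsNilpotent L) :
    Finite K ∧ Group.IsNilpotent K := by
  have h1 : Group.FG K := (Group.fg_iff_subgroup_fg _).2 hK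
  let e : K.subgroupOf N ≃* K := Subgroup.subgroupOfEquivOfLe hle
  have h2 : Group.FG (K.subgroupOf N) :=
    Group.fg_of_surjective (f := e.symm.toMonoidHom) e.symm.surjective
  have h3 : (K.subgroupOf N).FG := (Group.fg_iff_subgroup_fg _).1 h2
  have h4 : Finite (K.subgroupOf N) := hLF.fin_of_fg _ h3
  have h5 : Group.IsNilpotent (K.subgroupOf N) := hnil _ h3
  exact ⟨Finite.of_equiv _ e.toEquiv, (Group.isNilpotent_congr e).1 h5⟩

theorem map_torsion {G : Type u} [Group G] (φ : MulAut G) (q : ℕ) (N : Subgroup G)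
    (hN : N = Subgroup.closure {x : G | ∃ e : ℕ, x ^ q ^ e = 1}) : N.map φ.toMonoidHom = N := by
  rw [hN, MonoidHom.map_closure]
  congr 1
  ext x
  constructor
  · rintro ⟨y, ⟨e, he⟩, rfl⟩
    refine ⟨e, ?_⟩
    rw [← map_pow, he, map_one]
  · rintro ⟨e, he⟩
    refine ⟨φ.symm x, ⟨e, ?_⟩, φ.apply_symm_apply x⟩
    rw [← map_pow, he, map_one]

theorem qa {G : Type u} [Group G] {q : ℕ}
    (H : ∀ (n : ℕ) (g : G), g ^ q ^ n = 1 → g ∈ rad G)
    (N : Subgroup G) (hN : N = Subgroup.closure {x : G | ∃ e : ℕ, x ^ q ^ e = 1}) : LF N := by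
  have hNr : N ≤ rad G := by
    rw [hN, Subgroup.closure_le]
    rintro x ⟨e, he⟩
    exact H e x he
  exact (Pool.Agent.H76.MB.rad_LF G).mono hNr

theorem qb {G : Type u} [Group G] {q : ℕ} (hq : q.Prime) (K : Subgroup G) [Finite K]
    [Group.IsNilpotent K] (s : Set G) (hK : K = Subgroup.closure s)
    (hs : ∀ x ∈ s, ∃ e : ℕ, x ^ q ^ e = 1) : IsPGroup q K := by
  subst hK
  have h1 := Subgroup.closure_closure_coe_preimage (k := s)
  have h2 : ∀ x ∈ (Subtype.val ⁻¹' s : Set (Subgroup.closure s)), ∃ e : ℕ, x ^ q ^ e = 1 := by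
    intro x hx
    obtain ⟨e, he⟩ := hs (x : G) hx
    refine ⟨e, ?_⟩
    apply Subtype.ext
    rw [Subgroup.coe_pow, he, Subgroup.coe_one]
  exact pgroup_of_gen hq _ h1 h2

/-- Finitely many `q`-elements generate a finite `q`-group. -/
theorem qpart {G : Type u} [Group G] {p : ℕ} {φ : MulAut G} (hS : Spl p φ) {q : ℕ} (hq : q.Prime)
    (H : ∀ (n : ℕ) (g : G), g ^ q ^ n = 1 → g ∈ rad G)
    (s : Finset G) (hs : ∀ x ∈ s, ∃ e : ℕ, x ^ q ^ e = 1) :
    Finite (Subgroup.closure (s : Set G)) ∧ IsPGroup q (Subgroup.closure (s : Set G)) := by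
  obtain ⟨N, hN⟩ : ∃ N : Subgroup G, N = Subgroup.closure {x : G | ∃ e : ℕ, x ^ q ^ e = 1} :=
    ⟨_, rfl⟩
  have hNLF : LF N := qa H N hN
  have hle : Subgroup.closure (s : Set G) ≤ N := by
    rw [hN, Subgroup.closure_le]
    intro x hx
    exact Subgroup.subset_closure (hs x hx)
  have hr : Spl p (res φ N (map_torsion φ q N hN)) := spl_res hS N (map_torsion φ q N hN)
  have hnil : ∀ L : Subgroup N, L.FG → Group.IsNilpotent L := fun L hL => loc_nil hr hNLF L hL
  obtain ⟨K, hK⟩ : ∃ K : Subgroup G, K = Subgroup.closure (s : Set G) := ⟨_, rfl⟩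
  rw [← hK] at hle ⊢
  obtain ⟨hf, hn⟩ := transfer N K hle ⟨s, hK.symm⟩ hNLF hnil
  exact ⟨hf, qb hq K (s : Set G) hK hs⟩

end Pool.Agent.H59.PO
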