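import Pool.Agent.H81.SC.Gam
import Pool.Agent.H76.MB.Lf
import Pool.Agent.H83.BF.Chain

/-! Splitting automorphisms of prime order: definitions. -/

set_option autoImplicit false

open scoped commutatorElement

namespace Pool.Agent.H59.PO

universe u

/-- the orbit subgroup `H_g` -/
def Orb {G : Type u} [Group G] (p : ℕ) (φ : MulAut G) (g : G) : Subgroup G :=
  Subgroup.closure (Set.range (fun i : Fin p => (φ ^ (i : ℕ)) g))

/-- the assumptions of the problem: `p` prime, all orders prime to `p`, `φ ^ p = 1`, splitting, `H_g` nilpotent -/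
structure Spl (p : ℕ) {G : Type u} [Group G] (φ : MulAut G) : Prop where
  prime : p.Prime
  cop : ∀ g : G, Nat.Coprime (orderOf g) p
  pow : φ ^ p = 1
  split : ∀ g : G, ((List.range p).map (fun i => (φ ^ i) g)).prod = 1
  nilp : ∀ g : G, Group.IsNilpotent
    (Subgroup.closure (Set.range (fun i : Fin p => (φ ^ (i : ℕ)) g)))

/-- the restriction of an automorphism to an invariant subgroup -/
def res {G : Type u} [Group G] (φ : MulAut G) (N : Subgroup G) (h : N.map φ.toMonoidHom = N) :
    MulAut N where
  toFun x := ⟨φ x, by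
    have : φ.toMonoidHom x ∈ N.map φ.toMonoidHom := ⟨x, x.2, rfl⟩
    rw [h] at this
    exact this⟩
  invFun x := ⟨φ.symm x, by
    have h1 : (x : G) ∈ N.map φ.toMonoidHom := by rw [h]; exact x.2
    obtain ⟨y, hy, hyx⟩ := h1
    have h2 : φ.symm (x : G) = y := by
      rw [← hyx]
      exact φ.symm_apply_apply y
    rw [h2]
    exact hy⟩
  left_inv x := Subtype.ext (φ.symm_apply_apply _)
  right_inv x := Subtype.ext (φ.apply_symm_apply _)
  map_mul' x y := Subtype.ext (map_mul φ _ _)

theorem res_apply {G : Type u} [Group G] (φ : MulAut G) (N : Subgroup G)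
    (h : N.map φ.toMonoidHom = N) (x : N) : ((res φ N h x : N) : G) = φ x := rfl

theorem res_pow {G : Type u} [Group G] (φ : MulAut G) (N : Subgroup G)
    (h : N.map φ.toMonoidHom = N) (i : ℕ) (x : N) :
    (((res φ N h ^ i) x : N) : G) = (φ ^ i) (x : G) := by
  induction i generalizing x with
  | zero => rfl
  | succ i ih =>
    rw [pow_succ, pow_succ, MulAut.mul_apply, MulAut.mul_apply, ih, res_apply]

end Pool.Agent.H59.PO
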