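import Pool.Agent.H59.PO.Syl

/-! Invariant Sylow subgroups, continued. -/

set_option autoImplicit false

open scoped commutatorElement

namespace Pool.Agent.H59.PO

universe u

variable {F : Type u} [Group F] [Finite F]

/-- Proof: let `Q` be maximal among the invariant `q`-subgroups containing `Q₀`, `N = N(Q)` (invariant). `exists_inv` for
`res φ N` gives an invariant Sylow `q`-subgroup `S` of `N`; `Q ≤ S` since `Q` is normal in `N`, so `S = Q` by maximality; so `Q` is
a Sylow subgroup of its normaliser and then of `F` (normaliser condition in a Sylow subgroup of `F` containing `Q`). -/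
theorem le_inv {p : ℕ} (hp : p.Prime) {φ : MulAut F} (hcop : ∀ g : F, Nat.Coprime (orderOf g) p)
    (hφ : φ ^ p = 1) (q : ℕ) (hq : q.Prime) (Q₀ : Subgroup F) (hQ : IsPGroup q Q₀)
    (hinv : Q₀.map φ.toMonoidHom = Q₀) :
    ∃ P : Sylow q F, (P : Subgroup F).map φ.toMonoidHom = P ∧ Q₀ ≤ P := by
  classical
  have hfq : Fact q.Prime := ⟨hq⟩
  obtain ⟨Q, hQ0Q, hQmax⟩ := (Set.toFinite {R : Subgroup F | IsPGroup q R ∧
    R.map φ.toMonoidHom = R}).exists_le_maximal (a := Q₀) ⟨hQ, hinv⟩
  obtain ⟨hQp, hQinv⟩ := hQmax.prop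
  obtain ⟨N, hNdef⟩ : ∃ N : Subgroup F, N = Subgroup.normalizer (Q : Set F) := ⟨_, rfl⟩
  have hN : N.map φ.toMonoidHom = N := by
    rw [hNdef, Subgroup.map_equiv_normalizer_eq, hQinv]
  have hcopN : ∀ g : N, Nat.Coprime (orderOf g) p := fun g => by
    rw [← Subgroup.orderOf_coe]
    exact hcop g
  have hpowN : (res φ N hN) ^ p = 1 := by
    refine MulEquiv.ext fun x => Subtype.ext ?_
    rw [res_pow, hφ]
    rfl
  obtain ⟨S, hS⟩ := exists_inv hp hcopN hpowN q hq
  have hS'p : IsPGroup q ((S : Subgroup N).map N.subtype) := S.isPGroup'.map _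
  have hS'inv : ((S : Subgroup N).map N.subtype).map φ.toMonoidHom =
      (S : Subgroup N).map N.subtype := by
    have h1 : φ.toMonoidHom.comp N.subtype = N.subtype.comp (res φ N hN).toMonoidHom := by
      ext x
      rfl
    rw [Subgroup.map_map, h1, ← Subgroup.map_map, hS]
  have hQN : Q ≤ N := by
    rw [hNdef]
    exact Subgroup.le_normalizer
  have hnorm : (Q.subgroupOf N).Normal := by
    rw [hNdef]
    infer_instance
  have hQS : Q ≤ (S : Subgroup N).map N.subtype := by
    have h1 : IsPGroup q (Q.subgroupOf N) := hQp.comap_subtype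
    have h2 : Q.subgroupOf N ≤ S := h1.le_sylow_of_normal S
    have h3 := Subgroup.map_mono (f := N.subtype) h2
    rwa [Subgroup.map_subgroupOf_eq_of_le hQN] at h3
  have hQeq : Q = (S : Subgroup N).map N.subtype := hQmax.eq_of_le ⟨hS'p, hS'inv⟩ hQS
  obtain ⟨P, hQP⟩ := hQp.exists_le_sylow
  have hfin : Q = P := by
    by_contra hne
    have hnil : Group.IsNilpotent P := P.isPGroup'.isNilpotent
    have hnc : NormalizerCondition P := Group.normalizerCondition_of_isNilpotent
    have hlt : Q.subgroupOf P < ⊤ := by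
      rw [lt_top_iff_ne_top]
      intro h
      exact hne (le_antisymm hQP (Subgroup.subgroupOf_eq_top.1 h))
    obtain ⟨x, hx1, hx2⟩ := SetLike.exists_of_lt (hnc _ hlt)
    rw [← Subgroup.subgroupOf_normalizer_eq hQP, ← hNdef] at hx1
    have hxN : (x : F) ∈ N := hx1
    have hR : IsPGroup q ((P : Subgroup F).subgroupOf N) := P.isPGroup'.comap_subtype
    have hSR : (S : Subgroup N) ≤ (P : Subgroup F).subgroupOf N := by
      intro s hs
      have h1 : (s : F) ∈ (S : Subgroup N).map N.subtype := ⟨s, hs, rfl⟩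
      rw [← hQeq] at h1
      exact hQP h1
    have hRS := S.is_maximal' hR hSR
    have h2 : (⟨x, hxN⟩ : N) ∈ (S : Subgroup N) := by
      rw [← hRS]
      exact x.2
    have h3 : (x : F) ∈ (S : Subgroup N).map N.subtype := ⟨⟨x, hxN⟩, h2, rfl⟩
    rw [← hQeq] at h3
    exact hx2 h3
  exact ⟨P, by rw [← hfin]; exact hQinv, hQ0Q.trans hQP⟩

end Pool.Agent.H59.PO
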