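import Pool.Agent.H59.PO.Qgr
import Pool.Agent.H59.PO.Syl2

/-! Finite groups. -/

set_option autoImplicit false

open scoped commutatorElement

namespace Pool.Agent.H59.PO

universe u

/-- Proof: for every prime `q` the invariant Sylow `q`-subgroup `P` is unique and contains `Orb p φ x` for every `q`-element
`x` (`le_inv`, `unique_inv`, `H81.SC.fix`); so `P` contains all `q`-elements, it is normal: `Group.isNilpotent_of_finite_tfae`. -/
theorem fin_nil {F : Type u} [Group F] [Finite F] {p : ℕ} {φ : MulAut F} (hS : Spl p φ) :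
    Group.IsNilpotent F := by
  have hfix : ∀ g : F, φ g = g → g = 1 := by
    intro g hg
    refine _root_.H81.SC.fix hS.prime hS.cop hS.pow hS.split (i := 1) ?_ (by simpa using hg)
    intro h
    exact hS.prime.one_lt.not_ge (Nat.le_of_dvd one_pos h)
  refine ((Group.isNilpotent_of_finite_tfae (G := F)).out 0 3 rfl rfl).mpr ?_
  intro q hq P
  obtain ⟨P₀, hP₀, -⟩ := le_inv hS.prime hS.cop hS.pow q hq.out ⊥ IsPGroup.of_bot
    (Subgroup.map_bot _)
  have hall : ∀ x : F, (∃ e : ℕ, x ^ q ^ e = 1) → x ∈ P₀ := by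
    rintro x ⟨e, he⟩
    obtain ⟨P₁, hP₁, hle⟩ := le_inv hS.prime hS.cop hS.pow q hq.out (Orb p φ x)
      (orb_pgroup hS hq.out e x he) (orb_map hS x)
    rw [unique_inv hfix q hq.out P₀ P₁ hP₀ hP₁]
    exact hle (mem_orb hS x)
  have hqel : ∀ x ∈ P, ∃ e : ℕ, x ^ q ^ e = 1 := by
    intro x hx
    obtain ⟨e, he⟩ := P.isPGroup' ⟨x, hx⟩
    exact ⟨e, by simpa using congrArg Subtype.val he⟩
  have hle : (P : Subgroup F) ≤ P₀ := fun x hx => hall x (hqel x hx)
  have heq : (P₀ : Subgroup F) = P := P.is_maximal' P₀.isPGroup' hle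
  refine ⟨fun x hx g => ?_⟩
  obtain ⟨e, he⟩ := hqel x hx
  rw [← heq]
  refine hall _ ⟨e, ?_⟩
  rw [conj_pow, he, mul_one, mul_inv_cancel]

end Pool.Agent.H59.PO
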