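import Pool.Agent.H59.PO.Defs

/-! Restriction to invariant subgroups. -/

set_option autoImplicit false

open scoped commutatorElement

namespace Pool.Agent.H59.PO

universe u

variable {G : Type u} [Group G]

/-- The assumptions pass to invariant subgroups. Proof: `res_pow`; the orbit subgroup in `N` is mapped isomorphically onto the
one in `G`. -/
theorem spl_res {p : ℕ} {φ : MulAut G} (hS : Spl p φ) (N : Subgroup G)
    (h : N.map φ.toMonoidHom = N) : Spl p (res φ N h) := by
  refine ⟨hS.prime, fun g => ?_, ?_, fun g => ?_, fun g => ?_⟩
  · rw [← Subgroup.orderOf_coe]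
    exact hS.cop g
  · ext x
    rw [res_pow, hS.pow]
    rfl
  · apply Subtype.ext
    have h1 := map_list_prod N.subtype ((List.range p).map (fun i => (res φ N h ^ i) g))
    rw [List.map_map] at h1
    have h2 : (⇑N.subtype ∘ fun i => (res φ N h ^ i) g) = fun i => (φ ^ i) (g : G) := by
      funext i
      exact res_pow φ N h i g
    rw [h2, hS.split] at h1
    exact h1
  · have h1 : (Subgroup.closure (Set.range (fun i : Fin p => (res φ N h ^ (i : ℕ)) g))).map
        N.subtype = Subgroup.closure (Set.range (fun i : Fin p => (φ ^ (i : ℕ)) (g : G))) := by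
      rw [MonoidHom.map_closure, ← Set.range_comp]
      congr 2
      funext i
      exact res_pow φ N h i g
    have h2 := hS.nilp (g : G)
    rw [← h1] at h2
    exact Group.nilpotent_of_mulEquiv (((Subgroup.closure
      (Set.range (fun i : Fin p => (res φ N h ^ (i : ℕ)) g))).equivMapOfInjective N.subtype
        N.subtype_injective).symm)

end Pool.Agent.H59.PO
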