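import Pool.Agent.H59.PO.Fnil
import Pool.Agent.H59.PO.Res

/-! Locally finite groups. -/

set_option autoImplicit false

open scoped commutatorElement

namespace Pool.Agent.H59.PO

open Pool.Agent.H76.MB (LF rad)

universe u

/-- Proof: `H` lies in the finite invariant subgroup generated by the `φ ^ i s`, `s` in a finite generating set;
`spl_res`, `fin_nil`. -/
theorem loc_nil {G : Type u} [Group G] {p : ℕ} {φ : MulAut G} (hS : Spl p φ) (hLF : LF G)
    (H : Subgroup G) (hH : H.FG) : Group.IsNilpotent H := by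
  classical
  obtain ⟨s, rfl⟩ := hH
  have hp : 0 < p := hS.prime.pos
  have hpow : ∀ x : G, (φ ^ p) x = x := by
    intro x
    rw [hS.pow]
    rfl
  have hsucc : ∀ (i : ℕ) (x : G), φ ((φ ^ i) x) = (φ ^ (i + 1)) x := by
    intro i x
    rw [pow_succ', MulAut.mul_apply]
  set T : Finset G := (Finset.range p ×ˢ s).image (fun q => (φ ^ q.1) q.2) with hT
  have hmem : ∀ y : G, y ∈ T ↔ ∃ i : ℕ, i < p ∧ ∃ x ∈ s, (φ ^ i) x = y := by
    intro y
    rw [hT, Finset.mem_image]
    constructor
    · rintro ⟨q, hq, rfl⟩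
      rw [Finset.mem_product, Finset.mem_range] at hq
      exact ⟨q.1, hq.1, q.2, hq.2, rfl⟩
    · rintro ⟨i, hi, x, hx, rfl⟩
      exact ⟨(i, x), Finset.mem_product.mpr ⟨Finset.mem_range.mpr hi, hx⟩, rfl⟩
  have hinv : (Subgroup.closure (T : Set G)).map φ.toMonoidHom = Subgroup.closure (T : Set G) := by
    rw [MonoidHom.map_closure]
    apply le_antisymm
    · rw [Subgroup.closure_le]
      rintro _ ⟨y, hy, rfl⟩
      obtain ⟨i, hi, x, hx, rfl⟩ := (hmem y).1 hy
      show φ ((φ ^ i) x) ∈ Subgroup.closure (T : Set G)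
      rw [hsucc]
      apply Subgroup.subset_closure
      rcases Nat.lt_or_ge (i + 1) p with h | h
      · exact (hmem _).2 ⟨i + 1, h, x, hx, rfl⟩
      · have h1 : i + 1 = p := by omega
        rw [h1, hpow]
        exact (hmem _).2 ⟨0, hp, x, hx, rfl⟩
    · rw [Subgroup.closure_le]
      intro y hy
      obtain ⟨i, hi, x, hx, rfl⟩ := (hmem y).1 hy
      apply Subgroup.subset_closure
      rcases Nat.eq_zero_or_pos i with h | h
      · refine ⟨(φ ^ (p - 1)) x, (hmem _).2 ⟨p - 1, by omega, x, hx, rfl⟩, ?_⟩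
        show φ ((φ ^ (p - 1)) x) = (φ ^ i) x
        rw [hsucc, Nat.sub_add_cancel hp, hpow, h]
        rfl
      · refine ⟨(φ ^ (i - 1)) x, (hmem _).2 ⟨i - 1, by omega, x, hx, rfl⟩, ?_⟩
        show φ ((φ ^ (i - 1)) x) = (φ ^ i) x
        rw [hsucc, Nat.sub_add_cancel h]
  have hle : Subgroup.closure (s : Set G) ≤ Subgroup.closure (T : Set G) := by
    rw [Subgroup.closure_le]
    intro x hx
    apply Subgroup.subset_closure
    exact (hmem x).2 ⟨0, hp, x, hx, rfl⟩
  have hfin : Finite (Subgroup.closure (T : Set G)) := hLF T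
  have hnil : Group.IsNilpotent (Subgroup.closure (T : Set G)) :=
    fin_nil (spl_res hS (Subgroup.closure (T : Set G)) hinv)
  have h2 : Group.IsNilpotent
      ((Subgroup.closure (s : Set G)).subgroupOf (Subgroup.closure (T : Set G))) := by
    infer_instance
  exact Group.nilpotent_of_mulEquiv (Subgroup.subgroupOfEquivOfLe hle)

end Pool.Agent.H59.PO
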