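import Pool.Agent.H59.PO.Qgr

/-! Powerful groups: commutators lie in the normal closure of the powers of the generators. -/

set_option autoImplicit false

open scoped commutatorElement

namespace Pool.Agent.H59.PO

open Pool.Agent.H83.BF

universe u

variable {G : Type u} [Group G]

/-- a finite `2`-group generated by squares is trivial -/
theorem sq_gen (W : Subgroup G) [Finite W] (hP : IsPGroup 2 W) (h : W ≤ pw 2 W) : W = ⊥ := by
  by_contra hne
  have : Fact (Nat.Prime 2) := ⟨Nat.prime_two⟩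
  obtain ⟨k, hk⟩ := IsPGroup.iff_card.1 hP
  have hk0 : k ≠ 0 := by
    rintro rfl
    rw [pow_zero] at hk
    exact hne (Subgroup.card_eq_one.1 hk)
  obtain ⟨m, rfl⟩ := Nat.exists_eq_succ_of_ne_zero hk0
  obtain ⟨K, hK⟩ := Sylow.exists_subgroup_card_pow_prime 2 (G := W) (n := m)
    (by rw [hk]; exact pow_dvd_pow 2 (Nat.le_succ m))
  have hidx : K.index = 2 := by
    have h1 := K.card_mul_index
    rw [hK, hk, Nat.succ_eq_add_one, pow_succ] at h1
    exact Nat.eq_of_mul_eq_mul_left (pow_pos (by norm_num) m) h1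
  have h2 : pw 2 W ≤ K.map W.subtype := by
    unfold pw
    rw [Subgroup.closure_le]
    rintro _ ⟨a, ha, rfl⟩
    exact ⟨⟨a, ha⟩ ^ 2, Subgroup.sq_mem_of_index_two hidx _, rfl⟩
  have h3 : K = ⊤ := by
    rw [eq_top_iff]
    intro w _
    obtain ⟨v, hv, hvw⟩ := (h.trans h2) w.2
    have : v = w := Subtype.ext hvw
    rw [← this]
    exact hv
  rw [h3, Subgroup.index_top] at hidx
  omega

theorem two_sub (S : Set G) [Finite (Subgroup.closure S)] (hP : IsPGroup 2 (Subgroup.closure S))
    (h2 : ∀ s ∈ S, s ^ 2 = 1)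
    (h : ⁅Subgroup.closure S, Subgroup.closure S⁆ ≤ pw 4 (Subgroup.closure S)) :
    ⁅Subgroup.closure S, Subgroup.closure S⁆ = ⊥ := by
  obtain ⟨A, hA⟩ : ∃ A : Subgroup G, A = Subgroup.closure S := ⟨_, rfl⟩
  have hcl : ∀ a ∈ Subgroup.closure S, a ∈ A ∧ a ^ 2 ∈ ⁅A, A⁆ := by
    intro a ha
    induction ha using Subgroup.closure_induction with
    | mem s hs =>
      refine ⟨by rw [hA]; exact Subgroup.subset_closure hs, ?_⟩
      rw [h2 s hs]
      exact one_mem _
    | one => exact ⟨one_mem _, by rw [one_pow]; exact one_mem _⟩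
    | mul a b _ _ ha hb =>
      refine ⟨mul_mem ha.1 hb.1, ?_⟩
      have e : (a * b) ^ 2 = a ^ 2 * ⁅a⁻¹, b⁆ * b ^ 2 := by
        rw [commutatorElement_def, pow_two, pow_two, pow_two]
        group
      rw [e]
      exact mul_mem (mul_mem ha.2 (Subgroup.commutator_mem_commutator (inv_mem ha.1) hb.1)) hb.2
    | inv a _ ha =>
      refine ⟨inv_mem ha.1, ?_⟩
      rw [inv_pow]
      exact inv_mem ha.2
  rw [← hA] at hcl hP h ⊢
  have hf : Finite A := by rw [hA]; infer_instance
  have hWA : pw 2 A ≤ A := pw_le _ _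
  have hW : pw 2 A ≤ ⁅A, A⁆ := by
    unfold pw
    rw [Subgroup.closure_le]
    rintro _ ⟨a, ha, rfl⟩
    exact (hcl a ha).2
  have h4 : pw 4 A ≤ pw 2 (pw 2 A) := by
    unfold pw
    rw [Subgroup.closure_le]
    rintro _ ⟨a, ha, rfl⟩
    have e : a ^ 4 = (a ^ 2) ^ 2 := by rw [← pow_mul]
    show a ^ 4 ∈ _
    rw [e]
    exact pow_mem_pw (pow_mem_pw ha)
  have hfin : Finite (pw 2 A) := Finite.of_injective _ (Subgroup.inclusion_injective hWA)
  have hpg : IsPGroup 2 (pw 2 A) :=
    hP.of_injective (Subgroup.inclusion hWA) (Subgroup.inclusion_injective hWA)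
  have h5 := sq_gen (pw 2 A) hpg ((hW.trans h).trans h4)
  have h6 : pw 2 (pw 2 A) ≤ ⊥ := (pw_le 2 (pw 2 A)).trans h5.le
  exact le_bot_iff.1 ((h.trans h4).trans h6)

theorem pow_in {q : ℕ} (hq : q.Prime) (S : Set G) (hf : Finite (Subgroup.closure S))
    (hP : IsPGroup q (Subgroup.closure S))
    (h : ⁅Subgroup.closure S, Subgroup.closure S⁆ ≤
      pw (if q = 2 then 4 else q) (Subgroup.closure S))
    (N : Subgroup G) [N.Normal] (hN : ∀ s ∈ S, s ^ q ∈ N) :
    ⁅Subgroup.closure S, Subgroup.closure S⁆ ≤ N := by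
  by_cases h2 : q = 2
  · subst h2
    rw [if_pos rfl] at h
    let π := QuotientGroup.mk' N
    have hmap : (Subgroup.closure S).map π = Subgroup.closure (π '' S) := MonoidHom.map_closure π S
    have hf2 : Finite (Subgroup.closure (π '' S)) := by
      rw [← hmap]
      exact Set.Finite.to_subtype ((Set.toFinite (Subgroup.closure S : Set G)).image π)
    have hP2 : IsPGroup 2 (Subgroup.closure (π '' S)) := by
      rw [← hmap]
      exact hP.map π
    have h3 := two_sub (π '' S) hP2 (by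
      rintro _ ⟨s, hs, rfl⟩
      rw [← map_pow]
      exact (QuotientGroup.eq_one_iff (N := N) _).2 (hN s hs)) (by
      rw [← hmap, ← Subgroup.map_commutator, ← map_pw]
      exact Subgroup.map_mono h)
    rw [← hmap, ← Subgroup.map_commutator] at h3
    intro x hx
    apply (QuotientGroup.eq_one_iff (N := N) x).1
    have h4 : π x ∈ (⁅Subgroup.closure S, Subgroup.closure S⁆).map π := ⟨x, hx, rfl⟩
    rw [h3, Subgroup.mem_bot] at h4
    exact h4
  · rw [if_neg h2] at h
    have : Fact q.Prime := ⟨hq⟩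
    have hB := lemB' (hq.odd_of_ne_two h2) S hP h
    rw [hB] at h
    refine h.trans ?_
    rw [Subgroup.closure_le]
    rintro _ ⟨s, hs, rfl⟩
    exact hN s hs

end Pool.Agent.H59.PO
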