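import Pool.Agent.H59.PO.Defs

/-! Powerful groups: the order drops on commutators. -/

set_option autoImplicit false

open scoped commutatorElement

namespace Pool.Agent.H59.PO

open Pool.Agent.H83.BF

universe u

variable {G : Type u} [Group G]

/-- Proof: induction on `e` (for all `S`): `pw q (closure S) = closure (S ^ q)` (`lemB'`), which is again powerful (`lemA'`) and
generated by the `s ^ q`, `(s ^ q) ^ (q ^ e) = 1`; so `(k ^ q) ^ (q ^ e) = 1`. -/
theorem pow_exp {q : ℕ} (hq : q.Prime) (h2 : q ≠ 2) (e : ℕ) : ∀ (S : Set G),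
    Finite (Subgroup.closure S) → IsPGroup q (Subgroup.closure S) →
    ⁅Subgroup.closure S, Subgroup.closure S⁆ ≤ pw q (Subgroup.closure S) →
    (∀ s ∈ S, s ^ q ^ e = 1) → ∀ k ∈ Subgroup.closure S, k ^ q ^ e = 1 := by
  have : Fact q.Prime := ⟨hq⟩
  have hodd : Odd q := hq.odd_of_ne_two h2
  induction e with
  | zero =>
    intro S _ _ _ hS k hk
    rw [pow_zero, pow_one]
    have h1 : Subgroup.closure S ≤ ⊥ := by
      rw [Subgroup.closure_le]
      intro s hs
      have h2 := hS s hs
      rw [pow_zero, pow_one] at h2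
      exact h2
    exact Subgroup.mem_bot.1 (h1 hk)
  | succ e ih =>
    intro S hf hP h hS k hk
    have hB := lemB' hodd S hP h
    have hA := lemA' hodd (Subgroup.closure S) hP h
    have hle : pw q (Subgroup.closure S) ≤ Subgroup.closure S := pw_le _ _
    have hfin : Finite (pw q (Subgroup.closure S)) :=
      Finite.of_injective _ (Subgroup.inclusion_injective hle)
    have hpg : IsPGroup q (pw q (Subgroup.closure S)) :=
      hP.of_injective (Subgroup.inclusion hle) (Subgroup.inclusion_injective hle)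
    have hkq : k ^ q ∈ pw q (Subgroup.closure S) := pow_mem_pw hk
    rw [hB] at hA hfin hpg hkq
    have hS' : ∀ t ∈ (fun s : G => s ^ q) '' S, t ^ q ^ e = 1 := by
      rintro _ ⟨s, hs, rfl⟩
      show (s ^ q) ^ q ^ e = 1
      rw [← pow_mul, ← pow_succ']
      exact hS s hs
    have h3 := ih ((fun s : G => s ^ q) '' S) hfin hpg hA hS' (k ^ q) hkq
    rw [← pow_mul, ← pow_succ'] at h3
    exact h3

/-- Proof: `⁅K, K⁆ ≤ pw q K = closure (S ^ q)`; `pow_exp` for `S ^ q` (powerful by `lemA'`). -/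
theorem drop {q : ℕ} (hq : q.Prime) (h2 : q ≠ 2) (e : ℕ) (S : Set G)
    (hf : Finite (Subgroup.closure S)) (hP : IsPGroup q (Subgroup.closure S))
    (h : ⁅Subgroup.closure S, Subgroup.closure S⁆ ≤ pw q (Subgroup.closure S))
    (hS : ∀ s ∈ S, s ^ q ^ (e + 1) = 1) :
    ∀ k ∈ ⁅Subgroup.closure S, Subgroup.closure S⁆, k ^ q ^ e = 1 := by
  intro k hk
  have : Fact q.Prime := ⟨hq⟩
  have hodd : Odd q := hq.odd_of_ne_two h2
  have hB := lemB' hodd S hP h
  have hA := lemA' hodd (Subgroup.closure S) hP h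
  have hle : pw q (Subgroup.closure S) ≤ Subgroup.closure S := pw_le _ _
  have hfin : Finite (pw q (Subgroup.closure S)) :=
    Finite.of_injective _ (Subgroup.inclusion_injective hle)
  have hpg : IsPGroup q (pw q (Subgroup.closure S)) :=
    hP.of_injective (Subgroup.inclusion hle) (Subgroup.inclusion_injective hle)
  have hkq : k ∈ pw q (Subgroup.closure S) := h hk
  rw [hB] at hA hfin hpg hkq
  have hS' : ∀ t ∈ (fun s : G => s ^ q) '' S, t ^ q ^ e = 1 := by
    rintro _ ⟨s, hs, rfl⟩
    show (s ^ q) ^ q ^ e = 1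
    rw [← pow_mul, ← pow_succ']
    exact hS s hs
  exact pow_exp hq h2 e ((fun s : G => s ^ q) '' S) hfin hpg hA hS' k hkq

end Pool.Agent.H59.PO
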