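import Pool.Agent.H59.PO.Defs
import Pool.Agent.H81.SC.Orb

/-! Orbit subgroups of elements of prime power order. -/

set_option autoImplicit false

open scoped commutatorElement

namespace Pool.Agent.H59.PO

universe u

variable {G : Type u} [Group G]

/-- Proof: in a finite nilpotent group every Sylow subgroup is normal (`Group.isNilpotent_of_finite_tfae`), so the `q`-elements
lie in the unique Sylow `q`-subgroup. -/
theorem pgroup_of_gen {H : Type u} [Group H] [Finite H] [Group.IsNilpotent H] {q : ℕ}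
    (hq : q.Prime) (S : Set H) (hS : Subgroup.closure S = ⊤) (h : ∀ s ∈ S, ∃ e : ℕ, s ^ q ^ e = 1) :
    IsPGroup q H := by
  have : Fact q.Prime := ⟨hq⟩
  obtain ⟨P⟩ : Nonempty (Sylow q H) := Sylow.nonempty
  have hN : (P : Subgroup H).Normal := inferInstance
  have hSP : Subgroup.closure S ≤ (P : Subgroup H) := by
    rw [Subgroup.closure_le]
    intro s hs
    obtain ⟨e, he⟩ := h s hs
    have h1 : IsPGroup q (Subgroup.zpowers s) := by
      rintro ⟨x, hx⟩
      obtain ⟨k, rfl⟩ := Subgroup.mem_zpowers_iff.1 hx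
      refine ⟨e, Subtype.ext ?_⟩
      show (s ^ k) ^ q ^ e = 1
      rw [← zpow_natCast, ← zpow_mul, mul_comm, zpow_mul, zpow_natCast, he, one_zpow]
    have h2 : IsPGroup q (Subgroup.zpowers s ⊔ (P : Subgroup H) : Subgroup H) :=
      h1.to_sup_of_normal_right P.isPGroup'
    have h3 : (Subgroup.zpowers s ⊔ (P : Subgroup H) : Subgroup H) = P :=
      P.is_maximal' h2 le_sup_right
    have h4 : s ∈ (Subgroup.zpowers s ⊔ (P : Subgroup H) : Subgroup H) :=
      Subgroup.mem_sup_left (Subgroup.mem_zpowers s)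
    rw [h3] at h4
    exact h4
  intro x
  have hx : x ∈ (P : Subgroup H) := hSP (by rw [hS]; trivial)
  obtain ⟨k, hk⟩ := P.isPGroup' ⟨x, hx⟩
  exact ⟨k, congrArg Subtype.val hk⟩

private theorem ord_fin {p : ℕ} {φ : MulAut G} (hS : Spl p φ) (x : G) : IsOfFinOrder x := by
  rw [← orderOf_pos_iff]
  rcases Nat.eq_zero_or_pos (orderOf x) with h | h
  · exfalso
    have h1 := hS.cop x
    rw [h, Nat.coprime_zero_left] at h1
    exact hS.prime.one_lt.ne' h1
  · exact h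

/-- Proof: `Orb p φ x` is finitely generated, nilpotent, torsion: `H81.SC.finite_of_nilpotent`. -/
theorem orb_finite {p : ℕ} {φ : MulAut G} (hS : Spl p φ) (x : G) : Finite (Orb p φ x) := by
  have : Group.IsNilpotent (Orb p φ x) := hS.nilp x
  apply H81.SC.finite_of_nilpotent
  · rw [Group.fg_iff_subgroup_fg]
    exact (Subgroup.fg_iff _).2 ⟨_, rfl, Set.finite_range _⟩
  · intro h
    obtain ⟨n, hn, h'⟩ := isOfFinOrder_iff_pow_eq_one.1 (ord_fin hS (h : G))
    exact isOfFinOrder_iff_pow_eq_one.2 ⟨n, hn, Subtype.ext (by simpa using h')⟩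

/-- Proof: `pgroup_of_gen`. -/
theorem orb_pgroup {p : ℕ} {φ : MulAut G} (hS : Spl p φ) {q : ℕ} (hq : q.Prime) (e : ℕ) (x : G)
    (hx : x ^ q ^ e = 1) : IsPGroup q (Orb p φ x) := by
  have : Group.IsNilpotent (Orb p φ x) := hS.nilp x
  have : Finite (Orb p φ x) := orb_finite hS x
  have hmem : ∀ i : Fin p, (φ ^ (i : ℕ)) x ∈ Orb p φ x := fun i =>
    Subgroup.subset_closure ⟨i, rfl⟩
  refine pgroup_of_gen hq (Set.range fun i : Fin p => (⟨(φ ^ (i : ℕ)) x, hmem i⟩ : Orb p φ x))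
    ?_ ?_
  · apply Subgroup.map_injective (Subgroup.subtype_injective (Orb p φ x))
    rw [MonoidHom.map_closure, ← Set.range_comp]
    have h1 : (Orb p φ x).subtype ∘ (fun i : Fin p => (⟨(φ ^ (i : ℕ)) x, hmem i⟩ : Orb p φ x)) =
        fun i : Fin p => (φ ^ (i : ℕ)) x := rfl
    rw [h1, ← MonoidHom.range_eq_map, Subgroup.range_subtype]
    rfl
  · rintro _ ⟨i, rfl⟩
    refine ⟨e, Subtype.ext ?_⟩
    show ((φ ^ (i : ℕ)) x) ^ q ^ e = 1
    rw [← map_pow, hx, map_one]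

/-- Proof: `φ (φ ^ i x) = φ ^ (i + 1) x`, `φ ^ p = 1`. -/
theorem orb_map {p : ℕ} {φ : MulAut G} (hS : Spl p φ) (x : G) :
    (Orb p φ x).map φ.toMonoidHom = Orb p φ x := by
  have hp : 0 < p := hS.prime.pos
  have hall : ∀ k : ℕ, ∃ i : Fin p, (φ ^ k) x = (φ ^ (i : ℕ)) x := by
    intro k
    refine ⟨⟨k % p, Nat.mod_lt _ hp⟩, ?_⟩
    have h1 : φ ^ k = φ ^ (k % p) := by
      conv_lhs => rw [← Nat.div_add_mod k p]
      rw [pow_add, pow_mul, hS.pow, one_pow, one_mul]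
    rw [h1]
  have hset : φ.toMonoidHom '' (Set.range (fun i : Fin p => (φ ^ (i : ℕ)) x)) =
      Set.range (fun i : Fin p => (φ ^ (i : ℕ)) x) := by
    ext y
    constructor
    · rintro ⟨_, ⟨i, rfl⟩, rfl⟩
      obtain ⟨j, hj⟩ := hall ((i : ℕ) + 1)
      refine ⟨j, ?_⟩
      show (φ ^ (j : ℕ)) x = φ ((φ ^ (i : ℕ)) x)
      rw [← hj, pow_succ', MulAut.mul_apply]
    · rintro ⟨i, rfl⟩
      obtain ⟨j, hj⟩ := hall ((i : ℕ) + (p - 1))
      refine ⟨(φ ^ (j : ℕ)) x, ⟨j, rfl⟩, ?_⟩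
      show φ ((φ ^ (j : ℕ)) x) = (φ ^ (i : ℕ)) x
      rw [← hj, ← MulAut.mul_apply, ← pow_succ']
      have h2 : (i : ℕ) + (p - 1) + 1 = (i : ℕ) + p := by omega
      rw [h2, pow_add, hS.pow, mul_one]
  unfold Orb
  rw [MonoidHom.map_closure, hset]

/-- Proof: `φ ^ 0 x = x`. -/
theorem mem_orb {p : ℕ} {φ : MulAut G} (hS : Spl p φ) (x : G) : x ∈ Orb p φ x := by
  refine Subgroup.subset_closure ⟨⟨0, hS.prime.pos⟩, ?_⟩
  show (φ ^ 0) x = x
  rw [pow_zero]
  rfl

end Pool.Agent.H59.PO
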