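import Pool.Agent.H59.PO.Defs

/-! Invariant Sylow subgroups. -/

set_option autoImplicit false

open scoped commutatorElement

namespace Pool.Agent.H59.PO

universe u

variable {F : Type u} [Group F] [Finite F]

/-- Proof: the group `⟨φ⟩` of order dividing `p` acts on the set of Sylow `q`-subgroups (`Sylow.pointwiseMulAction`), their number
divides `Nat.card F`, which is prime to `p` (Cauchy); so there is a fixed point
(`Equiv.Perm.exists_fixed_point_of_prime`). -/
theorem exists_inv {p : ℕ} (hp : p.Prime) {φ : MulAut F} (hcop : ∀ g : F, Nat.Coprime (orderOf g) p)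
    (hφ : φ ^ p = 1) (q : ℕ) (hq : q.Prime) :
    ∃ P : Sylow q F, (P : Subgroup F).map φ.toMonoidHom = P := by
  classical
  have hpf : Fact p.Prime := ⟨hp⟩
  have hqf : Fact q.Prime := ⟨hq⟩
  have hft : Fintype (Sylow q F) := Fintype.ofFinite _
  have hσ : (MulAction.toPermHom (MulAut F) (Sylow q F) φ) ^ p ^ 1 = 1 := by
    rw [pow_one, ← map_pow, hφ, map_one]
  have hnd : ¬ p ∣ Fintype.card (Sylow q F) := by
    intro hdvd
    rw [← Nat.card_eq_fintype_card] at hdvd
    have P0 : Sylow q F := default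
    have h1 : p ∣ Nat.card F := (hdvd.trans P0.card_dvd_index).trans (Subgroup.index_dvd_card _)
    obtain ⟨g, hg⟩ := exists_prime_orderOf_dvd_card' p h1
    have h2 := hcop g
    rw [hg, Nat.coprime_self] at h2
    exact hp.one_lt.ne' h2
  obtain ⟨P, hP⟩ := Equiv.Perm.exists_fixed_point_of_prime hnd hσ
  exact ⟨P, congrArg (fun Q : Sylow q F => (Q : Subgroup F)) hP⟩

/-- Proof: `P' = g P g⁻¹`, `g⁻¹ φ(g)` normalises `P`; on the finite invariant group `N(P)` the map `h ↦ h⁻¹ φ(h)` is injective (no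
fixed points), so surjective: `g⁻¹ φ(g) = h⁻¹ φ(h)`, `h ∈ N(P)`, `g h⁻¹` is fixed, so `g = h`. -/
theorem unique_inv {φ : MulAut F} (hfix : ∀ g : F, φ g = g → g = 1) (q : ℕ) (hq : q.Prime)
    (P P' : Sylow q F) (h : (P : Subgroup F).map φ.toMonoidHom = P)
    (h' : (P' : Subgroup F).map φ.toMonoidHom = P') : P = P' := by
  classical
  have hqf : Fact q.Prime := ⟨hq⟩
  -- injectivity of the Lang map
  have hinj : ∀ a b : F, a⁻¹ * φ a = b⁻¹ * φ b → a = b := by
    intro a b hab
    have h1 : φ (b * a⁻¹) = b * a⁻¹ := by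
      rw [map_mul, map_inv]
      have h2 : φ b = b * (a⁻¹ * φ a) := by rw [hab, mul_inv_cancel_left]
      rw [h2]
      group
    exact (mul_inv_eq_one.1 (hfix _ h1)).symm
  -- conjugates
  have hmap : ∀ (g : F) (Q : Subgroup F), (Q.map (MulAut.conj g).toMonoidHom).map φ.toMonoidHom =
      (Q.map φ.toMonoidHom).map (MulAut.conj (φ g)).toMonoidHom := by
    intro g Q
    rw [Subgroup.map_map, Subgroup.map_map]
    congr 1
    ext x
    simp
  have hnorm : ∀ g : F, g ∈ Subgroup.normalizer (P : Set F) ↔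
      (P : Subgroup F).map (MulAut.conj g).toMonoidHom = P := by
    intro g
    rw [← Sylow.smul_eq_iff_mem_normalizer]
    constructor
    · intro hg
      exact congrArg (fun Q : Sylow q F => (Q : Subgroup F)) hg
    · intro hg
      exact Sylow.ext hg
  obtain ⟨g, hg⟩ := MulAction.exists_smul_eq F P P'
  have hgP : (P : Subgroup F).map (MulAut.conj g).toMonoidHom = P' :=
    congrArg (fun Q : Sylow q F => (Q : Subgroup F)) hg
  have hinv : ∀ n ∈ Subgroup.normalizer (P : Set F), φ n ∈ Subgroup.normalizer (P : Set F) := by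
    intro n hn
    rw [hnorm] at hn ⊢
    have h1 := hmap n P
    rw [hn, h] at h1
    exact h1.symm
  have hgN : g⁻¹ * φ g ∈ Subgroup.normalizer (P : Set F) := by
    rw [hnorm]
    have h1 := hmap g P
    rw [hgP, h', h, ← hgP] at h1
    have h2 : (P : Subgroup F).map (MulAut.conj (g⁻¹ * φ g)).toMonoidHom =
        ((P : Subgroup F).map (MulAut.conj (φ g)).toMonoidHom).map (MulAut.conj g⁻¹).toMonoidHom := by
      rw [Subgroup.map_map]
      congr 1
      ext x
      simp [mul_assoc]
    rw [h2, ← h1, Subgroup.map_map]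
    have h3 : ((MulAut.conj g⁻¹).toMonoidHom.comp (MulAut.conj g).toMonoidHom) = MonoidHom.id F := by
      ext x
      simp [mul_assoc]
    rw [h3, Subgroup.map_id]
  have hsurj : Function.Surjective (fun n : Subgroup.normalizer (P : Set F) =>
      (⟨(n : F)⁻¹ * φ n, Subgroup.mul_mem _ (Subgroup.inv_mem _ n.2) (hinv _ n.2)⟩ :
        Subgroup.normalizer (P : Set F))) := by
    apply Finite.surjective_of_injective
    intro a b hab
    exact Subtype.ext (hinj _ _ (congrArg Subtype.val hab))
  obtain ⟨n, hn⟩ := hsurj ⟨g⁻¹ * φ g, hgN⟩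
  have hn' : (n : F)⁻¹ * φ n = g⁻¹ * φ g := congrArg Subtype.val hn
  have hgn : (n : F) = g := hinj _ _ hn'
  have hgN' : g ∈ Subgroup.normalizer (P : Set F) := hgn ▸ n.2
  rw [← Sylow.smul_eq_iff_mem_normalizer] at hgN'
  rw [← hg, hgN']

end Pool.Agent.H59.PO
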